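import Pool.Agent.MWS.StmtsB

/-!
# Block MWS, row MAS: the marks lemma
-/

set_option autoImplicit false

namespace Pool.Agent.MWS.H36

open Pool.Agent.Helper14_MV Pool.Agent.Helper2_MV Pool.Agent.MVO Pool.Agent.MWL

/-- the same counts in all blocks -/
def CE (k : ℕ) (F G : ℕ → List ℕ) : Prop := ∀ j ≤ k, ∀ c, (G j).count c = (F j).count c

theorem CE.okB {k : ℕ} {F G : ℕ → List ℕ} (h : CE k F G) (hF : OkB k F) : OkB k G := by
  have hm : ∀ j ≤ k, ∀ c ∈ G j, c ∈ F j := by
    intro j hj c hc
    have h1 : 0 < (G j).count c := List.count_pos_iff.2 hc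
    rw [h j hj c] at h1
    exact List.count_pos_iff.1 h1
  refine ⟨fun j hj c hc => hF.ok j hj c (hm j hj c hc), fun j hj c hc => ?_⟩
  have h2 := hF.ml j hj c (hm j hj c hc)
  have e : deg k (fun j => (G j).count c) = deg k (fun j => (F j).count c) := by
    unfold deg
    refine Finset.sum_congr rfl (fun i hi => ?_)
    have hi' : i ≤ k := by
      have := Finset.mem_range.1 hi
      omega
    exact h i hi' c
  rw [e]
  exact h2

theorem CE.shp {k : ℕ} {B F G : ℕ → List ℕ} (h : CE k F G) (hS : Shp k B F) : Shp k B G := by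
  intro c hc j hj
  have h1 := hS c hc j hj
  unfold ty at h1 ⊢
  rw [h j hj c]
  exact h1

theorem t1 {U U2 V F : Prop} (b : ¬ U2) (hn : ¬ (U2 ↔ V)) (s : U → ¬ V)
    (ib : ¬ (U ↔ V) → (F ↔ U)) : F ↔ U2 := by tauto

theorem t2 {U U2 V F : Prop} (b : ¬ U) (hn : ¬ (U2 ↔ V)) (s : U2 → V)
    (ib : ¬ (U ↔ V) → (F ↔ U)) : F ↔ U2 := by tauto

theorem t3 {U U2 V F : Prop} (e : U ↔ U2) (hn : ¬ (U2 ↔ V))
    (ib : ¬ (U ↔ V) → (F ↔ U)) : F ↔ U2 := by tauto

theorem t4 {p q r s : Prop} (h : ¬ (¬ q ∧ ¬ r)) (h' : ¬ (¬ p ∧ ¬ s)) :
    (r ∧ s) ∨ (p ∧ q) ∨ (p ∧ r) ∨ (q ∧ s) := by tauto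

theorem block (hBFX : BfxStmt) (hFRE : FreStmt) (hLBB : LbbStmt) (β θ : FIC) (hA : ApI β)
    (hI : Itr β) (hle : β ≤ θ) (k : ℕ) (B B' : ℕ → List ℕ)
    (H : ∀ (C : ℕ → List ℕ) (i : ℕ) (A D : List ℕ) (x y : ℕ), OkB k C → Shp k B C → i ≤ k →
        C i = A ++ x :: y :: D → x ≠ y → x ∉ D → y ∉ A → ¬ (Bef (B i) x y ↔ Bef (B' i) x y) →
          RR θ (asm k C) (asm k (Function.update C i (A ++ y :: x :: D))))
    (F : ℕ → List ℕ) (i : ℕ) (v : List ℕ) (hi : i ≤ k) (hF : OkB k F) (hS : Shp k B F)
    (hcv : ∀ c, (F i).count c = v.count c)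
    (hFB : ∀ c d, c ≠ d → (Bef (B i) c d ↔ Bef (F i) c d))
    (hvB : ∀ c d, c ≠ d → (Bef (B' i) c d ↔ Bef v c d)) :
    RR θ (asm k F) (asm k (Function.update F i v)) := by
  have key : ∀ u, Relation.ReflTransGen (Stq v) (F i) u →
      (∀ c, u.count c = (F i).count c) ∧
      (∀ c d, c ≠ d → ¬ (Bef u c d ↔ Bef v c d) → (Bef (F i) c d ↔ Bef u c d)) ∧
      RR θ (asm k F) (asm k (Function.update F i u)) := by
    intro u hu
    induction hu with
    | refl =>
      refine ⟨fun c => rfl, fun c d _ _ => Iff.rfl, ?_⟩
      rw [Function.update_eq_self]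
      exact RR.refl _
    | tail hu1 hst ih =>
      rename_i u u2
      obtain ⟨ia, ib, ic⟩ := ih
      obtain ⟨A, D, x, y, hxy, rfl, rfl, s1, s2⟩ := hst
      obtain ⟨b1, b2, b3, b4, b5⟩ := hBFX A D x y hxy
      have hcount : ∀ c, (A ++ y :: x :: D).count c = (A ++ x :: y :: D).count c := by
        intro c
        simp only [List.count_append, List.count_cons]
        omega
      have ceu : CE k F (Function.update F i (A ++ x :: y :: D)) := by
        intro j hj c
        by_cases hji : j = i
        · subst hji
          rw [Function.update_self]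
          exact ia c
        · rw [Function.update_of_ne hji]
      have ceu2 : CE k F (Function.update F i (A ++ y :: x :: D)) := by
        intro j hj c
        by_cases hji : j = i
        · subst hji
          rw [Function.update_self, hcount]
          exact ia c
        · rw [Function.update_of_ne hji]
      refine ⟨fun c => by rw [hcount]; exact ia c, ?_, ?_⟩
      · intro c d hcd hne
        by_cases h1 : c = x ∧ d = y
        · obtain ⟨rfl, rfl⟩ := h1
          have := ib c d hcd
          tauto
        · by_cases h2 : c = y ∧ d = x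
          · obtain ⟨rfl, rfl⟩ := h2
            have := ib c d hcd
            tauto
          · exact t3 (b5 c d h1 h2) hne (ib c d hcd)
      · refine θ.trans ic ?_
        change RR θ _ _
        by_cases h1 : Bef (A ++ x :: y :: D) x y
        · have h2 := b1.1 h1
          have h3 := s1 h1
          have h4 : Bef (F i) x y := (ib x y hxy (fun h => h3 (h.1 h1))).2 h1
          have h5 : Bef (B i) x y := (hFB x y hxy).2 h4
          have h6 : ¬ Bef (B' i) x y := fun h => h3 ((hvB x y hxy).1 h)
          have h7 := H (Function.update F i (A ++ x :: y :: D)) i A D x y (ceu.okB hF)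
            (ceu.shp hS) hi (Function.update_self ..) hxy h2.2 h2.1 (fun h => h6 (h.1 h5))
          rw [Function.update_idem] at h7
          exact h7
        · by_cases h1' : Bef (A ++ y :: x :: D) y x
          · have h2 := b4.1 h1'
            have h3 := s2 h1'
            have h4 : ¬ Bef (F i) y x := fun h => b3 ((ib y x (Ne.symm hxy) (fun h => b3 (h.2 h3))).1 h)
            have h5 : ¬ Bef (B i) y x := fun h => h4 ((hFB y x (Ne.symm hxy)).1 h)
            have h6 : Bef (B' i) y x := (hvB y x (Ne.symm hxy)).2 h3
            have h7 := H (Function.update F i (A ++ y :: x :: D)) i A D y x (ceu2.okB hF)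
              (ceu2.shp hS) hi (Function.update_self ..) (Ne.symm hxy) h2.2 h2.1
              (fun h => h5 (h.2 h6))
            rw [Function.update_idem] at h7
            exact h7.symm
          · have h2 : ¬ (y ∉ A ∧ x ∉ D) := fun h => h1 (b1.2 h)
            have h3 : ¬ (x ∉ A ∧ y ∉ D) := fun h => h1' (b4.2 h)
            have h7 := hFRE β hA hI k (Function.update F i (A ++ x :: y :: D)) (ceu.okB hF) i hi
              A D x y (Function.update_self ..) hxy (t4 h2 h3)
            rw [Function.update_idem] at h7
            exact hle _ _ h7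
  exact (key v (hLBB _ _ hcv)).2.2

theorem mas (hBFX : BfxStmt) (hRDC : RdcStmt) (hFRE : FreStmt) (hLBB : LbbStmt) : MasStmt := by
  intro β θ hA hI hle k B B' hB hB' hS H
  obtain ⟨C, hC1, hC2, hC3, hC4, hC5⟩ := hRDC β hI k B hB
  obtain ⟨C', hC1', hC2', hC3', hC4', hC5'⟩ := hRDC β hI k B' hB'
  have hcnt : ∀ j ≤ k, ∀ c, (C' j).count c = (C j).count c := by
    intro j hj c
    by_cases hc : NS k c
    · rw [hC4 j hj c, hC4' j hj c]
      have h1 := hS c hc j hj
      unfold ty at h1
      omega
    · have e1 : (C j).count c = 0 := List.count_eq_zero.2 (fun h => hc (hC1.ok j hj c h))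
      have e2 : (C' j).count c = 0 := List.count_eq_zero.2 (fun h => hc (hC1'.ok j hj c h))
      rw [e1, e2]
  have main : ∀ m ≤ k + 1, RR θ (asm k C) (asm k (fun j => if j < m then C' j else C j)) := by
    intro m
    induction m with
    | zero =>
      intro _
      have e : (fun j => if j < 0 then C' j else C j) = C := by
        funext j
        rw [if_neg (Nat.not_lt_zero j)]
      rw [e]
      exact RR.refl _
    | succ m ih =>
      intro hm
      refine θ.trans (ih (by omega)) ?_
      change RR θ _ _
      have ce : CE k C (fun j => if j < m then C' j else C j) := by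
        intro j hj c
        by_cases h : j < m
        · simp only [if_pos h]
          exact hcnt j hj c
        · simp only [if_neg h]
      have e : (fun j => if j < m + 1 then C' j else C j) =
          Function.update (fun j => if j < m then C' j else C j) m (C' m) := by
        funext j
        by_cases h : j = m
        · subst h
          rw [Function.update_self, if_pos (Nat.lt_succ_self j)]
        · rw [Function.update_of_ne h]
          by_cases h' : j < m
          · rw [if_pos h', if_pos (by omega)]
          · rw [if_neg h', if_neg (by omega)]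
      rw [e]
      refine block hBFX hFRE hLBB β θ hA hI hle k B B' H _ m (C' m) (by omega) (ce.okB hC1)
        (ce.shp hC2) ?_ ?_ (hC5' m (by omega))
      · intro c
        rw [if_neg (lt_irrefl m)]
        exact (hcnt m (by omega) c).symm
      · intro c d hcd
        rw [if_neg (lt_irrefl m)]
        exact hC5 m (by omega) c d hcd
  have h1 := main (k + 1) (le_refl _)
  rw [asm_congr (B := fun j => if j < k + 1 then C' j else C j) (B' := C')
    (fun j hj => if_pos (by omega))] at h1
  have h2 : RR θ (asm k B) (asm k C) := hle _ _ hC3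
  have h3 : RR θ (asm k B') (asm k C') := hle _ _ hC3'
  exact θ.trans h2 (θ.trans h1 h3.symm)

end Pool.Agent.MWS.H36
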